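import Pool.Agent.Run7.h109.G.HG
import Pool.Agent.Run7.h285.A.Stm

/-!
# HGP (project GENP): the constants of Bateman and Horn at prime arguments for almost all constant terms

After `Run7/h109/G/{HG1,HG2,HG}.lean` (helper109), with the reduced residues in the place of all residues.
-/

set_option autoImplicit false

namespace Run7.h803.A

open Finset Filter Topology Polynomial
open Run7.h285.S (Bx)
open Run7.h285.G (Gd nu)
open Run7.h285.A (nup SP AdmP S_HGP)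
open Run7.h109.G

/-! ### the number of the reduced residues at which nothing vanishes -/

/-- the number of the reduced residues modulo `p` at which no `f_l + a_l` vanishes -/
noncomputable def mr {k : ℕ} (f : Fin k → ℤ[X]) (a : Fin k → ℤ) (p : ℕ) : ℝ :=
  ∑ x ∈ Ioo 0 p, ∏ l, e (f l) p x (a l)

/-- its mean -/
noncomputable def br (k p : ℕ) : ℝ := ((p : ℝ) - 1) * (1 - 1 / (p : ℝ)) ^ k

lemma card_Io (p : ℕ) (hp : 1 ≤ p) : ((#(Ioo 0 p) : ℕ) : ℝ) = (p : ℝ) - 1 := by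
  rw [Nat.card_Ioo, Nat.sub_zero, Nat.cast_sub hp, Nat.cast_one]

lemma mr_eq {k : ℕ} (f : Fin k → ℤ[X]) (a : Fin k → ℤ) (p : ℕ) (hp : 1 ≤ p) :
    mr f a p = (p : ℝ) - 1 - nup f a p := by
  classical
  have h1 : (nup f a p : ℝ) = ∑ x ∈ Ioo 0 p, (1 - ∏ l, e (f l) p x (a l)) := by
    unfold nup
    rw [card_filter]
    push_cast
    apply sum_congr rfl
    intro x _
    split_ifs with h
    · obtain ⟨l, hl⟩ := h
      rw [prod_eq_zero (mem_univ l) (by unfold e; rw [if_pos hl]), sub_zero]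
    · push Not at h
      rw [prod_eq_one (fun l _ => by unfold e; rw [if_neg (h l)]), sub_self]
  rw [h1, sum_sub_distrib, sum_const, nsmul_eq_mul, mul_one, card_Io p hp]
  unfold mr
  ring

lemma nup_le_nu {k : ℕ} (f : Fin k → ℤ[X]) (a : Fin k → ℤ) (p : ℕ) : nup f a p ≤ nu f a p := by
  classical
  unfold nup nu
  apply card_le_card
  intro x hx
  rw [mem_filter, mem_Ioo] at hx
  rw [mem_filter, mem_range]
  exact ⟨hx.1.2, hx.2⟩

lemma u_nonneg (p : ℕ) (hp : 1 ≤ p) : (0 : ℝ) ≤ (p : ℝ) - 1 := by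
  have : (1 : ℝ) ≤ p := by exact_mod_cast hp
  linarith

lemma br_nonneg (k p : ℕ) (hp : 1 ≤ p) : 0 ≤ br k p := by
  unfold br
  exact mul_nonneg (u_nonneg p hp) (pow_nonneg (al_mem p hp).1 k)

lemma br_le (k p : ℕ) (hp : 1 ≤ p) : br k p ≤ (p : ℝ) - 1 := by
  unfold br
  obtain ⟨h1, h2⟩ := al_mem p hp
  have : (1 - 1 / (p : ℝ)) ^ k ≤ 1 := pow_le_one₀ h1 h2
  have hp0 := u_nonneg p hp
  nlinarith

lemma sum_mr {k : ℕ} (f : Fin k → ℤ[X]) (X p : ℕ) :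
    ∑ a ∈ Bx k X, mr f a p = ∑ x ∈ Ioo 0 p, ∏ l, ∑ c ∈ Icc (-(X : ℤ)) X, e (f l) p x c := by
  unfold mr Bx
  rw [sum_comm]
  apply sum_congr rfl
  intro x _
  rw [prod_univ_sum]

lemma sum_mr2 {k : ℕ} (f : Fin k → ℤ[X]) (X p q : ℕ) :
    ∑ a ∈ Bx k X, mr f a p * mr f a q =
      ∑ x ∈ Ioo 0 p, ∑ x' ∈ Ioo 0 q, ∏ l, ∑ c ∈ Icc (-(X : ℤ)) X, e (f l) p x c * e (f l) q x' c := by
  unfold mr Bx
  simp only [sum_mul_sum, ← prod_mul_distrib]
  rw [sum_comm]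
  apply sum_congr rfl
  intro x _
  rw [sum_comm]
  apply sum_congr rfl
  intro x' _
  rw [prod_univ_sum]

/-- the first moment -/
lemma rom1 {k : ℕ} (f : Fin k → ℤ[X]) (X p : ℕ) (hp : 1 ≤ p) :
    (2 * X + 1 : ℝ) * |∑ a ∈ Bx k X, mr f a p - (2 * X + 1) ^ k * br k p| ≤
      ((p : ℝ) - 1) * (k * 1 * (2 * X + 1) ^ k) := by
  set M : ℝ := 2 * X + 1 with hM
  have hM0 : 0 ≤ M := by positivity
  obtain ⟨h1, h2⟩ := al_mem p hp
  have h3 : ∑ a ∈ Bx k X, mr f a p - M ^ k * br k p =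
      ∑ x ∈ Ioo 0 p, (∏ l, ∑ c ∈ Icc (-(X : ℤ)) X, e (f l) p x c - (M * (1 - 1 / (p : ℝ))) ^ k) := by
    rw [sum_mr, sum_sub_distrib, sum_const, nsmul_eq_mul, card_Io p hp, mul_pow]
    unfold br
    ring
  have hz : |M * (1 - 1 / (p : ℝ))| ≤ M := by
    rw [abs_of_nonneg (mul_nonneg hM0 h1)]
    nlinarith
  calc M * |∑ a ∈ Bx k X, mr f a p - M ^ k * br k p|
      ≤ M * ∑ x ∈ Ioo 0 p, |∏ l, ∑ c ∈ Icc (-(X : ℤ)) X, e (f l) p x c - (M * (1 - 1 / (p : ℝ))) ^ k| := by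
        rw [h3]
        exact mul_le_mul_of_nonneg_left (abs_sum_le_sum_abs _ _) hM0
    _ = ∑ x ∈ Ioo 0 p, M * |∏ l, ∑ c ∈ Icc (-(X : ℤ)) X, e (f l) p x c - (M * (1 - 1 / (p : ℝ))) ^ k| := mul_sum _ _ _
    _ ≤ ∑ _x ∈ Ioo 0 p, k * 1 * M ^ k := by
        apply sum_le_sum
        intro x _
        exact prod_close _ _ M 1 hM0 (fun l => abs_sum_e_le _ _ _ _) hz (fun l => s1 X p hp (f l) x)
    _ = _ := by rw [sum_const, nsmul_eq_mul, card_Io p hp]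

/-- the second moment -/
lemma rom2 {k : ℕ} (f : Fin k → ℤ[X]) (X p q : ℕ) (hp : 1 ≤ p) (hq : 1 ≤ q) (h : Nat.Coprime p q) :
    (2 * X + 1 : ℝ) * |∑ a ∈ Bx k X, mr f a p * mr f a q - (2 * X + 1) ^ k * (br k p * br k q)| ≤
      ((p : ℝ) - 1) * (((q : ℝ) - 1) * (k * 3 * (2 * X + 1) ^ k)) := by
  set M : ℝ := 2 * X + 1 with hM
  have hM0 : 0 ≤ M := by positivity
  obtain ⟨h1, h2⟩ := al_mem p hp
  obtain ⟨h1', h2'⟩ := al_mem q hq
  have h3 : ∑ a ∈ Bx k X, mr f a p * mr f a q - M ^ k * (br k p * br k q) =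
      ∑ x ∈ Ioo 0 p, ∑ x' ∈ Ioo 0 q, (∏ l, ∑ c ∈ Icc (-(X : ℤ)) X, e (f l) p x c * e (f l) q x' c
        - (M * ((1 - 1 / (p : ℝ)) * (1 - 1 / (q : ℝ)))) ^ k) := by
    rw [sum_mr2]
    simp only [sum_sub_distrib]
    rw [sum_const, nsmul_eq_mul, sum_const, nsmul_eq_mul, card_Io p hp, card_Io q hq, mul_pow, mul_pow]
    unfold br
    ring
  have hz : |M * ((1 - 1 / (p : ℝ)) * (1 - 1 / (q : ℝ)))| ≤ M := by
    rw [abs_of_nonneg (mul_nonneg hM0 (mul_nonneg h1 h1'))]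
    have : (1 - 1 / (p : ℝ)) * (1 - 1 / (q : ℝ)) ≤ 1 := mul_le_one₀ h2 h1' h2'
    nlinarith
  calc M * |∑ a ∈ Bx k X, mr f a p * mr f a q - M ^ k * (br k p * br k q)|
      ≤ M * ∑ x ∈ Ioo 0 p, ∑ x' ∈ Ioo 0 q, |∏ l, ∑ c ∈ Icc (-(X : ℤ)) X, e (f l) p x c * e (f l) q x' c
        - (M * ((1 - 1 / (p : ℝ)) * (1 - 1 / (q : ℝ)))) ^ k| := by
        rw [h3]
        apply mul_le_mul_of_nonneg_left _ hM0
        refine (abs_sum_le_sum_abs _ _).trans (sum_le_sum fun x _ => abs_sum_le_sum_abs _ _)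
    _ = ∑ x ∈ Ioo 0 p, ∑ x' ∈ Ioo 0 q, M * |∏ l, ∑ c ∈ Icc (-(X : ℤ)) X, e (f l) p x c * e (f l) q x' c
        - (M * ((1 - 1 / (p : ℝ)) * (1 - 1 / (q : ℝ)))) ^ k| := by simp only [mul_sum]
    _ ≤ ∑ _x ∈ Ioo 0 p, ∑ _x' ∈ Ioo 0 q, k * 3 * M ^ k := by
        apply sum_le_sum
        intro x _
        apply sum_le_sum
        intro x' _
        exact prod_close _ _ M 3 hM0 (fun l => abs_sum_ee_le _ _ _ _ _ _) hz (fun l => s2 X p q hp hq h (f l) x x')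
    _ = _ := by
        rw [sum_const, nsmul_eq_mul, sum_const, nsmul_eq_mul, card_Io p hp, card_Io q hq]

/-- the covariance -/
lemma cor {k : ℕ} (f : Fin k → ℤ[X]) (X p q : ℕ) (hp : 1 ≤ p) (hq : 1 ≤ q) (h : Nat.Coprime p q) :
    (2 * X + 1 : ℝ) * |∑ a ∈ Bx k X, (mr f a p - br k p) * (mr f a q - br k q)| ≤
      5 * k * (((p : ℝ) - 1) * ((q : ℝ) - 1)) * (2 * X + 1) ^ k := by
  have h1 := rom1 f X p hp
  have h2 := rom1 f X q hq
  have h3 := rom2 f X p q hp hq h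
  set M : ℝ := 2 * X + 1 with hM
  have hM0 : 0 ≤ M := by positivity
  have hb := br_nonneg k p hp
  have hb' := br_nonneg k q hq
  have hc := br_le k p hp
  have hc' := br_le k q hq
  have hp0 := u_nonneg p hp
  have hq0 := u_nonneg q hq
  have h4 : ∑ a ∈ Bx k X, (mr f a p - br k p) * (mr f a q - br k q) =
      (∑ a ∈ Bx k X, mr f a p * mr f a q - M ^ k * (br k p * br k q))
      - br k q * (∑ a ∈ Bx k X, mr f a p - M ^ k * br k p)
      - br k p * (∑ a ∈ Bx k X, mr f a q - M ^ k * br k q) := by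
    have h5 : ∀ a, (mr f a p - br k p) * (mr f a q - br k q) =
        mr f a p * mr f a q - br k q * mr f a p - br k p * mr f a q + br k p * br k q := fun a => by ring
    simp only [h5]
    rw [sum_add_distrib, sum_sub_distrib, sum_sub_distrib, sum_const, nsmul_eq_mul, card_Bx, ← mul_sum, ← mul_sum]
    ring
  rw [h4]
  set A := ∑ a ∈ Bx k X, mr f a p * mr f a q - M ^ k * (br k p * br k q)
  set P := ∑ a ∈ Bx k X, mr f a p - M ^ k * br k p
  set Q := ∑ a ∈ Bx k X, mr f a q - M ^ k * br k q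
  have h6 : |A - br k q * P - br k p * Q| ≤ |A| + br k q * |P| + br k p * |Q| := by
    calc |A - br k q * P - br k p * Q| ≤ |A - br k q * P| + |br k p * Q| := abs_sub _ _
      _ ≤ |A| + |br k q * P| + |br k p * Q| := by
          have := abs_sub A (br k q * P)
          linarith
      _ = _ := by rw [abs_mul, abs_mul, abs_of_nonneg hb, abs_of_nonneg hb']
  have h7 : br k q * (M * |P|) ≤ ((q : ℝ) - 1) * (((p : ℝ) - 1) * (k * 1 * M ^ k)) :=
    mul_le_mul hc' h1 (by positivity) hq0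
  have h8 : br k p * (M * |Q|) ≤ ((p : ℝ) - 1) * (((q : ℝ) - 1) * (k * 1 * M ^ k)) :=
    mul_le_mul hc h2 (by positivity) hp0
  calc M * |A - br k q * P - br k p * Q| ≤ M * (|A| + br k q * |P| + br k p * |Q|) :=
        mul_le_mul_of_nonneg_left h6 hM0
    _ = M * |A| + br k q * (M * |P|) + br k p * (M * |Q|) := by ring
    _ ≤ ((p : ℝ) - 1) * (((q : ℝ) - 1) * (k * 3 * M ^ k)) + ((q : ℝ) - 1) * (((p : ℝ) - 1) * (k * 1 * M ^ k)) +
          ((p : ℝ) - 1) * (((q : ℝ) - 1) * (k * 1 * M ^ k)) := by linarith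
    _ = _ := by ring

/-! ### the sum over the primes -/

/-- the sum over the primes -/
noncomputable def DR {k : ℕ} (f : Fin k → ℤ[X]) (a : Fin k → ℤ) (w N : ℕ) : ℝ :=
  ∑ p ∈ ps w N, (mr f a p - br k p) / ((p : ℝ) - 1)

lemma nup_le {k : ℕ} (f : Fin k → ℤ[X]) (hf : ∀ l, Gd (f l)) (a : Fin k → ℤ) (p : ℕ) (hp : p.Prime)
    (h : p0 f < p) : nup f a p ≤ kap f := (nup_le_nu f a p).trans (nu_le f hf a p hp h)

lemma br_ge (k p : ℕ) (hp : 1 ≤ p) : (p : ℝ) - 1 - k ≤ br k p := by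
  have hp1 : (1 : ℝ) ≤ p := by exact_mod_cast hp
  have hp0 : (0 : ℝ) < p := by linarith
  obtain ⟨h1, h2⟩ := al_mem p hp
  have h3 := one_add_mul_le_pow (a := -(1 / (p : ℝ))) (by linarith) k
  have h4 : (1 + -(1 / (p : ℝ))) = 1 - 1 / p := by ring
  rw [h4] at h3
  have h5 := mul_le_mul_of_nonneg_left h3 (u_nonneg p hp)
  unfold br
  refine le_trans ?_ h5
  have hk : (0 : ℝ) ≤ k := Nat.cast_nonneg _
  have h6 : ((p : ℝ) - 1) * (1 + k * -(1 / (p : ℝ))) = (p : ℝ) - 1 - k + k / p := by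
    field_simp
    ring
  rw [h6]
  have : 0 ≤ (k : ℝ) / p := by positivity
  linarith

lemma der_le {k : ℕ} (f : Fin k → ℤ[X]) (hf : ∀ l, Gd (f l)) (a : Fin k → ℤ) (p : ℕ) (hp : p.Prime) (h : p0 f < p) :
    |mr f a p - br k p| ≤ kap f + k := by
  have h1 := nup_le f hf a p hp h
  have h2 : (nup f a p : ℝ) ≤ kap f := by exact_mod_cast h1
  have h3 : (0 : ℝ) ≤ nup f a p := Nat.cast_nonneg _
  have h4 := br_ge k p hp.one_lt.le
  have h6 : (0 : ℝ) ≤ k := Nat.cast_nonneg _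
  have h8 : (0 : ℝ) ≤ kap f := Nat.cast_nonneg _
  have h7 := br_le k p hp.one_lt.le
  rw [mr_eq f a p hp.one_lt.le, abs_le]
  constructor
  · linarith
  · linarith

lemma inv_sq_le (p : ℕ) (hp : p.Prime) : 1 / ((p : ℝ) - 1) ^ 2 ≤ 4 * (1 / (p : ℝ) ^ 2) := by
  have hp2 : (2 : ℝ) ≤ p := by exact_mod_cast hp.two_le
  have h1 : (0 : ℝ) < (p : ℝ) - 1 := by linarith
  rw [mul_one_div, div_le_div_iff₀ (by positivity) (by positivity)]
  nlinarith

/-- the second moment -/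
lemma romm {k : ℕ} (f : Fin k → ℤ[X]) (hf : ∀ l, Gd (f l)) (X w N : ℕ) (hw : 1 ≤ w) (h : p0 f ≤ w) :
    (2 * X + 1 : ℝ) * ∑ a ∈ Bx k X, DR f a w N ^ 2 ≤
      (2 * X + 1 : ℝ) ^ k * (4 * (kap f + k : ℝ) ^ 2 * (2 * X + 1) / w + 5 * k * N ^ 2) := by
  set M : ℝ := 2 * X + 1 with hM
  have hM0 : 0 ≤ M := by positivity
  have hw0 : (0 : ℝ) < w := by exact_mod_cast hw
  have h1 : ∑ a ∈ Bx k X, DR f a w N ^ 2 =
      ∑ p ∈ ps w N, ∑ q ∈ ps w N, (1 / (((p : ℝ) - 1) * ((q : ℝ) - 1))) *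
        ∑ a ∈ Bx k X, (mr f a p - br k p) * (mr f a q - br k q) := by
    unfold DR
    simp only [sq, sum_mul_sum]
    rw [sum_comm]
    apply sum_congr rfl
    intro p _
    rw [sum_comm]
    apply sum_congr rfl
    intro q _
    rw [mul_sum]
    apply sum_congr rfl
    intro a _
    rw [div_mul_div_comm, one_div_mul_eq_div]
  have h2 : ∀ p ∈ ps w N, ∀ q ∈ ps w N,
      M * ((1 / (((p : ℝ) - 1) * ((q : ℝ) - 1))) * ∑ a ∈ Bx k X, (mr f a p - br k p) * (mr f a q - br k q)) ≤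
        (if p = q then M * (4 * (kap f + k : ℝ) ^ 2 * M ^ k) * (1 / (p : ℝ) ^ 2) else 0) + 5 * k * M ^ k := by
    intro p hp q hq
    obtain ⟨⟨hp1, _⟩, hp2⟩ := mem_ps.1 hp
    obtain ⟨⟨hq1, _⟩, hq2⟩ := mem_ps.1 hq
    have hp0 : (0 : ℝ) < (p : ℝ) - 1 := by
      have : (2 : ℝ) ≤ p := by exact_mod_cast hp2.two_le
      linarith
    have hq0 : (0 : ℝ) < (q : ℝ) - 1 := by
      have : (2 : ℝ) ≤ q := by exact_mod_cast hq2.two_le
      linarith
    by_cases hpq : p = q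
    · rw [if_pos hpq, ← hpq]
      have h3 : ∑ a ∈ Bx k X, (mr f a p - br k p) * (mr f a p - br k p) ≤ (kap f + k : ℝ) ^ 2 * M ^ k := by
        calc ∑ a ∈ Bx k X, (mr f a p - br k p) * (mr f a p - br k p) ≤ ∑ a ∈ Bx k X, (kap f + k : ℝ) ^ 2 := by
              apply sum_le_sum
              intro a _
              have h4 := der_le f hf a p hp2 (by omega)
              rw [← sq, ← sq_abs]
              exact pow_le_pow_left₀ (abs_nonneg _) h4 2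
          _ = _ := by rw [sum_const, nsmul_eq_mul, card_Bx, mul_comm]
      have h4 : (0 : ℝ) ≤ 5 * k * M ^ k := by positivity
      have h5 : M * ((1 / (((p : ℝ) - 1) * ((p : ℝ) - 1))) * ∑ a ∈ Bx k X, (mr f a p - br k p) * (mr f a p - br k p)) ≤
          M * ((1 / (((p : ℝ) - 1) * ((p : ℝ) - 1))) * ((kap f + k : ℝ) ^ 2 * M ^ k)) :=
        mul_le_mul_of_nonneg_left (mul_le_mul_of_nonneg_left h3 (by positivity)) hM0
      have h6 : M * ((1 / (((p : ℝ) - 1) * ((p : ℝ) - 1))) * ((kap f + k : ℝ) ^ 2 * M ^ k)) =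
          M * ((kap f + k : ℝ) ^ 2 * M ^ k) * (1 / ((p : ℝ) - 1) ^ 2) := by
        rw [sq ((p : ℝ) - 1)]; ring
      have h7 := mul_le_mul_of_nonneg_left (inv_sq_le p hp2)
        (show 0 ≤ M * ((kap f + k : ℝ) ^ 2 * M ^ k) by positivity)
      have h8 : M * ((kap f + k : ℝ) ^ 2 * M ^ k) * (4 * (1 / (p : ℝ) ^ 2)) =
        M * (4 * (kap f + k : ℝ) ^ 2 * M ^ k) * (1 / (p : ℝ) ^ 2) := by ring
      linarith
    · rw [if_neg hpq, zero_add]
      have h3 := cor f X p q hp2.one_lt.le hq2.one_lt.le ((Nat.coprime_primes hp2 hq2).2 hpq)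
      rw [← hM] at h3
      have h4 := le_abs_self (∑ a ∈ Bx k X, (mr f a p - br k p) * (mr f a q - br k q))
      have h5 : M * ∑ a ∈ Bx k X, (mr f a p - br k p) * (mr f a q - br k q) ≤
          5 * k * (((p : ℝ) - 1) * ((q : ℝ) - 1)) * M ^ k :=
        (mul_le_mul_of_nonneg_left h4 hM0).trans h3
      calc M * ((1 / (((p : ℝ) - 1) * ((q : ℝ) - 1))) * ∑ a ∈ Bx k X, (mr f a p - br k p) * (mr f a q - br k q))
          = (1 / (((p : ℝ) - 1) * ((q : ℝ) - 1))) *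
            (M * ∑ a ∈ Bx k X, (mr f a p - br k p) * (mr f a q - br k q)) := by ring
        _ ≤ (1 / (((p : ℝ) - 1) * ((q : ℝ) - 1))) * (5 * k * (((p : ℝ) - 1) * ((q : ℝ) - 1)) * M ^ k) :=
            mul_le_mul_of_nonneg_left h5 (by positivity)
        _ = _ := by field_simp
  rw [h1]
  calc M * ∑ p ∈ ps w N, ∑ q ∈ ps w N, (1 / (((p : ℝ) - 1) * ((q : ℝ) - 1))) *
        ∑ a ∈ Bx k X, (mr f a p - br k p) * (mr f a q - br k q)
      = ∑ p ∈ ps w N, ∑ q ∈ ps w N, M * ((1 / (((p : ℝ) - 1) * ((q : ℝ) - 1))) *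
          ∑ a ∈ Bx k X, (mr f a p - br k p) * (mr f a q - br k q)) := by
        rw [mul_sum]
        apply sum_congr rfl
        intro p _
        rw [mul_sum]
    _ ≤ ∑ p ∈ ps w N, ∑ q ∈ ps w N,
        ((if p = q then M * (4 * (kap f + k : ℝ) ^ 2 * M ^ k) * (1 / (p : ℝ) ^ 2) else 0) + 5 * k * M ^ k) :=
        sum_le_sum fun p hp => sum_le_sum fun q hq => h2 p hp q hq
    _ = M * (4 * (kap f + k : ℝ) ^ 2 * M ^ k) * ∑ p ∈ ps w N, (1 / (p : ℝ) ^ 2) +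
        #(ps w N) * (#(ps w N) * (5 * k * M ^ k)) := by
        simp only [sum_add_distrib, sum_const, nsmul_eq_mul, sum_ite_eq]
        rw [mul_sum]
        congr 1
        apply sum_congr rfl
        intro p hp
        rw [if_pos hp]
    _ ≤ M * (4 * (kap f + k : ℝ) ^ 2 * M ^ k) * (1 / w) + N * (N * (5 * k * M ^ k)) := by
        apply add_le_add
        · exact mul_le_mul_of_nonneg_left (sum_inv_sq w N hw) (by positivity)
        · have h3 : (#(ps w N) : ℝ) ≤ N := by exact_mod_cast card_ps w N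
          have h4 : (0 : ℝ) ≤ #(ps w N) := Nat.cast_nonneg _
          apply mul_le_mul h3 _ (by positivity) (Nat.cast_nonneg _)
          exact mul_le_mul_of_nonneg_right h3 (by positivity)
    _ = _ := by ring

/-- few tuples have a large sum -/
lemma rew {k : ℕ} (f : Fin k → ℤ[X]) (hf : ∀ l, Gd (f l)) (X w N : ℕ) (hX : 1 ≤ X) (hw : 1 ≤ w) (h : p0 f ≤ w)
    (τ : ℝ) (hτ : 0 < τ) [DecidablePred fun a : Fin k → ℤ => τ < |DR f a w N|] :
    (#((Bx k X).filter (fun a => τ < |DR f a w N|)) : ℝ) ≤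
      (3 : ℝ) ^ k * (4 * (kap f + k : ℝ) ^ 2 / w + 5 * k * N ^ 2 / X) / τ ^ 2 * X ^ k := by
  have h1 := romm f hf X w N hw h
  set S := (Bx k X).filter (fun a => τ < |DR f a w N|) with hS
  have hX1 : (1 : ℝ) ≤ X := by exact_mod_cast hX
  have hX0 : (0 : ℝ) < X := by linarith
  have hw0 : (0 : ℝ) < w := by exact_mod_cast hw
  set M : ℝ := 2 * X + 1 with hM
  have hM0 : 0 < M := by positivity
  have h2 : τ ^ 2 * #S ≤ ∑ a ∈ Bx k X, DR f a w N ^ 2 := by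
    calc τ ^ 2 * #S = ∑ _a ∈ S, τ ^ 2 := by rw [sum_const, nsmul_eq_mul, mul_comm]
      _ ≤ ∑ a ∈ S, DR f a w N ^ 2 := by
          apply sum_le_sum
          intro a ha
          rw [← sq_abs (DR f a w N)]
          exact pow_le_pow_left₀ hτ.le (mem_filter.1 ha).2.le 2
      _ ≤ _ := sum_le_sum_of_subset_of_nonneg (filter_subset _ _) (fun _ _ _ => sq_nonneg _)
  have h3 : M * (τ ^ 2 * #S) ≤ M ^ k * (4 * (kap f + k : ℝ) ^ 2 * M / w + 5 * k * N ^ 2) :=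
    (mul_le_mul_of_nonneg_left h2 hM0.le).trans h1
  have h4 : M ^ k ≤ (3 : ℝ) ^ k * X ^ k := by
    rw [← mul_pow]
    apply pow_le_pow_left₀ hM0.le
    rw [hM]; linarith
  have h5 : τ ^ 2 * #S ≤ M ^ k * (4 * (kap f + k : ℝ) ^ 2 / w + 5 * k * N ^ 2 / M) := by
    have h6 : M * (M ^ k * (4 * (kap f + k : ℝ) ^ 2 / w + 5 * k * N ^ 2 / M)) =
        M ^ k * (4 * (kap f + k : ℝ) ^ 2 * M / w + 5 * k * N ^ 2) := by
      field_simp
    exact le_of_mul_le_mul_left (by rw [h6]; exact h3) hM0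
  have h7 : (5 : ℝ) * k * N ^ 2 / M ≤ 5 * k * N ^ 2 / X := by
    apply div_le_div_of_nonneg_left (by positivity) hX0
    rw [hM]; linarith
  have h8 : τ ^ 2 * #S ≤ ((3 : ℝ) ^ k * X ^ k) * (4 * (kap f + k : ℝ) ^ 2 / w + 5 * k * N ^ 2 / X) := by
    refine h5.trans ?_
    apply mul_le_mul h4 _ (by positivity) (by positivity)
    linarith
  have h9 : (3 : ℝ) ^ k * (4 * (kap f + k : ℝ) ^ 2 / w + 5 * k * N ^ 2 / X) / τ ^ 2 * X ^ k =
      (((3 : ℝ) ^ k * X ^ k) * (4 * (kap f + k : ℝ) ^ 2 / w + 5 * k * N ^ 2 / X)) / τ ^ 2 := by ring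
  rw [h9, le_div_iff₀ (by positivity)]
  linarith

/-! ### the factors -/

/-- the constant of the error terms -/
noncomputable def K3 {k : ℕ} (f : Fin k → ℤ[X]) : ℝ := 8 * (kap f : ℝ) ^ 2 + 2 * k + (k : ℝ) ^ 2

/-- a factor of the constant -/
noncomputable def fap {k : ℕ} (f : Fin k → ℤ[X]) (a : Fin k → ℤ) (p : ℕ) : ℝ :=
  (1 - (nup f a p : ℝ) / ((p : ℝ) - 1)) / (1 - 1 / (p : ℝ)) ^ k

lemma fap_bound {k : ℕ} (f : Fin k → ℤ[X]) (hf : ∀ l, Gd (f l)) (a : Fin k → ℤ) (p : ℕ) (hp : p.Prime)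
    (h : p0 f < p) (h2 : 2 * kap f < p) :
    0 < fap f a p ∧ |Real.log (fap f a p) - (mr f a p - br k p) / ((p : ℝ) - 1)| ≤ K3 f / (p : ℝ) ^ 2 := by
  have hp2 : (2 : ℝ) ≤ p := by exact_mod_cast hp.two_le
  have hp0 : (0 : ℝ) < p := by linarith
  have hu0 : (0 : ℝ) < (p : ℝ) - 1 := by linarith
  have hν : (nup f a p : ℝ) ≤ kap f := by exact_mod_cast nup_le f hf a p hp h
  have hν0 : (0 : ℝ) ≤ nup f a p := Nat.cast_nonneg _
  have hκ : 2 * (kap f : ℝ) ≤ (p : ℝ) - 1 := by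
    have h3 : 2 * kap f + 1 ≤ p := by omega
    have : 2 * (kap f : ℝ) + 1 ≤ p := by exact_mod_cast h3
    linarith
  have hκ0 : (0 : ℝ) ≤ kap f := Nat.cast_nonneg _
  have hk0 : (0 : ℝ) ≤ k := Nat.cast_nonneg _
  have hx0 : 0 ≤ (nup f a p : ℝ) / ((p : ℝ) - 1) := by positivity
  have hx1 : (nup f a p : ℝ) / ((p : ℝ) - 1) ≤ 1 / 2 := by
    rw [div_le_iff₀ hu0]; linarith
  have hy0 : 0 ≤ 1 / (p : ℝ) := by positivity
  have hy1 : 1 / (p : ℝ) ≤ 1 / 2 := one_div_le_one_div_of_le (by norm_num) hp2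
  have hpos1 : 0 < 1 - (nup f a p : ℝ) / ((p : ℝ) - 1) := by linarith
  have hpos2 : 0 < 1 - 1 / (p : ℝ) := by linarith
  have hpos : 0 < fap f a p := by
    unfold fap
    positivity
  refine ⟨hpos, ?_⟩
  have hlog : Real.log (fap f a p) =
      Real.log (1 - (nup f a p : ℝ) / ((p : ℝ) - 1)) - k * Real.log (1 - 1 / (p : ℝ)) := by
    unfold fap
    rw [Real.log_div hpos1.ne' (pow_ne_zero _ hpos2.ne'), Real.log_pow]
  have a1 := log_low _ hx0 hx1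
  have a2 := log_up _ (by linarith : (nup f a p : ℝ) / ((p : ℝ) - 1) < 1)
  have b1 := log_low _ hy0 hy1
  have b2 := log_up _ (by linarith : 1 / (p : ℝ) < 1)
  have b1' := mul_le_mul_of_nonneg_left b1 hk0
  have b2' := mul_le_mul_of_nonneg_left b2 hk0
  obtain ⟨c1, c2⟩ := mb_close k p hp.one_lt.le
  have hx2 : ((nup f a p : ℝ) / ((p : ℝ) - 1)) ^ 2 ≤ 4 * ((kap f : ℝ) ^ 2 / (p : ℝ) ^ 2) := by
    rw [div_pow]
    have h3 := inv_sq_le p hp
    calc (nup f a p : ℝ) ^ 2 / ((p : ℝ) - 1) ^ 2 = (nup f a p : ℝ) ^ 2 * (1 / ((p : ℝ) - 1) ^ 2) := by ring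
      _ ≤ (kap f : ℝ) ^ 2 * (4 * (1 / (p : ℝ) ^ 2)) := by
          apply mul_le_mul (pow_le_pow_left₀ hν0 hν 2) h3 (by positivity) (by positivity)
      _ = _ := by ring
  have c3 : 0 ≤ ((k : ℝ) - p + mb k p) / p := div_nonneg c1 hp0.le
  have c4 : ((k : ℝ) - p + mb k p) / p ≤ (k : ℝ) ^ 2 / (p : ℝ) ^ 2 := by
    rw [sq (p : ℝ), ← div_div]
    exact div_le_div_of_nonneg_right c2 hp0.le
  have d1 : (mr f a p - br k p) / ((p : ℝ) - 1) =
      (k : ℝ) * (1 / p) - (nup f a p : ℝ) / ((p : ℝ) - 1) - ((k : ℝ) - p + mb k p) / p := by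
    rw [mr_eq f a p hp.one_lt.le]
    unfold br mb
    have e1 : ((p : ℝ) - 1 - nup f a p - ((p : ℝ) - 1) * (1 - 1 / (p : ℝ)) ^ k) / ((p : ℝ) - 1) =
        1 - (nup f a p : ℝ) / ((p : ℝ) - 1) - (1 - 1 / (p : ℝ)) ^ k := by
      field_simp
    have e2 : ((k : ℝ) - p + p * (1 - 1 / (p : ℝ)) ^ k) / p =
        (k : ℝ) * (1 / p) - 1 + (1 - 1 / (p : ℝ)) ^ k := by
      field_simp
    rw [e1, e2]
    ring
  have d2 : K3 f / (p : ℝ) ^ 2 = 2 * (4 * ((kap f : ℝ) ^ 2 / (p : ℝ) ^ 2)) + 2 * (k * (1 / (p : ℝ)) ^ 2) +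
      (k : ℝ) ^ 2 / (p : ℝ) ^ 2 := by
    unfold K3
    field_simp
    ring
  have e1 : 0 ≤ (kap f : ℝ) ^ 2 / (p : ℝ) ^ 2 := by positivity
  have e2 : 0 ≤ k * (1 / (p : ℝ)) ^ 2 := by positivity
  have e3 : 0 ≤ (k : ℝ) ^ 2 / (p : ℝ) ^ 2 := by positivity
  rw [hlog, d1, d2, abs_le]
  constructor
  · nlinarith
  · nlinarith

lemma SP_eq {k : ℕ} (f : Fin k → ℤ[X]) (a : Fin k → ℤ) (N : ℕ) :
    SP f a N = ∏ p ∈ (range (N + 1)).filter Nat.Prime, fap f a p := rfl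

lemma SP_split {k : ℕ} (f : Fin k → ℤ[X]) (a : Fin k → ℤ) (w N : ℕ) (h : w ≤ N) :
    SP f a N = SP f a w * ∏ p ∈ ps w N, fap f a p := by
  rw [SP_eq, SP_eq, ← prod_union]
  · congr 1
    ext p
    rw [mem_union, mem_filter, mem_filter, mem_ps, mem_range, mem_range]
    constructor
    · rintro ⟨h1, h2⟩
      by_cases h3 : p < w + 1
      · left; exact ⟨h3, h2⟩
      · right; exact ⟨⟨by omega, by omega⟩, h2⟩
    · rintro (⟨h1, h2⟩ | ⟨⟨h1, h2⟩, h3⟩)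
      · exact ⟨by omega, h2⟩
      · exact ⟨by omega, h3⟩
  · rw [disjoint_left]
    intro p hp hp'
    rw [mem_filter, mem_range] at hp
    rw [mem_ps] at hp'
    omega

/-- the quotient of two cut constants -/
lemma SP_quot {k : ℕ} (f : Fin k → ℤ[X]) (hf : ∀ l, Gd (f l)) (a : Fin k → ℤ) (w N : ℕ) (hw : 1 ≤ w) (h0 : p0 f ≤ w)
    (h1 : 2 * kap f ≤ w) (h : w ≤ N) :
    ∃ t : ℝ, SP f a N = SP f a w * Real.exp t ∧ |t - DR f a w N| ≤ K3 f / w := by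
  refine ⟨∑ p ∈ ps w N, Real.log (fap f a p), ?_, ?_⟩
  · rw [SP_split f a w N h, Real.exp_sum]
    congr 1
    apply prod_congr rfl
    intro p hp
    obtain ⟨⟨hp1, _⟩, hp2⟩ := mem_ps.1 hp
    rw [Real.exp_log (fap_bound f hf a p hp2 (by omega) (by omega)).1]
  · unfold DR
    rw [← sum_sub_distrib]
    refine (abs_sum_le_sum_abs _ _).trans ?_
    have hK : 0 ≤ K3 f := by unfold K3; positivity
    calc ∑ p ∈ ps w N, |Real.log (fap f a p) - (mr f a p - br k p) / ((p : ℝ) - 1)|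
        ≤ ∑ p ∈ ps w N, K3 f * (1 / (p : ℝ) ^ 2) := by
          apply sum_le_sum
          intro p hp
          obtain ⟨⟨hp1, _⟩, hp2⟩ := mem_ps.1 hp
          rw [mul_one_div]
          exact (fap_bound f hf a p hp2 (by omega) (by omega)).2
      _ = K3 f * ∑ p ∈ ps w N, 1 / (p : ℝ) ^ 2 := by rw [mul_sum]
      _ ≤ K3 f * (1 / w) := mul_le_mul_of_nonneg_left (sum_inv_sq w N hw) hK
      _ = _ := by ring

/-- the lower bound for the constant cut at `w` -/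
lemma SP_ge {k : ℕ} (f : Fin k → ℤ[X]) (a : Fin k → ℤ) (hadm : AdmP f a) (w : ℕ) :
    ∏ p ∈ (range (w + 1)).filter Nat.Prime, (1 / (p : ℝ)) ≤ SP f a w := by
  rw [SP_eq]
  apply Finset.prod_le_prod
  · intro p _; positivity
  · intro p hp
    rw [mem_filter] at hp
    have hp2 : (2 : ℝ) ≤ p := by exact_mod_cast hp.2.two_le
    have hp0 : (0 : ℝ) < p := by linarith
    have hu0 : (0 : ℝ) < (p : ℝ) - 1 := by linarith
    have hν := hadm p hp.2
    have hν' : (nup f a p : ℝ) + 1 ≤ (p : ℝ) - 1 := by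
      have h1 : nup f a p + 1 + 1 ≤ p := by omega
      have h2 : (nup f a p : ℝ) + 1 + 1 ≤ p := by exact_mod_cast h1
      linarith
    unfold fap
    have hy1 : 1 / (p : ℝ) ≤ 1 / 2 := one_div_le_one_div_of_le (by norm_num) hp2
    have hy0 : 0 ≤ 1 / (p : ℝ) := by positivity
    have hpos2 : 0 < 1 - 1 / (p : ℝ) := by linarith
    have h1 : (1 - 1 / (p : ℝ)) ^ k ≤ 1 := pow_le_one₀ hpos2.le (by linarith)
    have h2 : 0 < (1 - 1 / (p : ℝ)) ^ k := pow_pos hpos2 _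
    have h3 : 1 / ((p : ℝ) - 1) ≤ 1 - (nup f a p : ℝ) / ((p : ℝ) - 1) := by
      rw [le_sub_iff_add_le, ← add_div, div_le_one hu0]
      linarith
    have h4 : 1 / (p : ℝ) ≤ 1 / ((p : ℝ) - 1) := one_div_le_one_div_of_le hu0 (by linarith)
    rw [le_div_iff₀ h2]
    calc 1 / (p : ℝ) * (1 - 1 / (p : ℝ)) ^ k ≤ 1 / (p : ℝ) * 1 := mul_le_mul_of_nonneg_left h1 hy0
      _ ≤ _ := by linarith

open Classical in
lemma rew' {k : ℕ} (f : Fin k → ℤ[X]) (hf : ∀ l, Gd (f l)) (τ η : ℝ) (hτ : 0 < τ) (hη : 0 < η) :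
    ∃ W : ℕ, 1 ≤ W ∧ p0 f ≤ W ∧ ∀ C : ℕ, ∃ X₀ : ℕ, ∀ X : ℕ, X₀ ≤ X → ∀ w : ℕ, W ≤ w → ∀ y : ℕ, (y : ℝ) ≤ Real.log X ^ C →
      (#((Bx k X).filter (fun a => τ < |DR f a w y|)) : ℝ) ≤ η / 2 * (X : ℝ) ^ k := by
  set A : ℝ := 4 * 3 ^ k * (4 * (kap f + k : ℝ) ^ 2) / (τ ^ 2 * η) with hA
  have hA0 : 0 ≤ A := by positivity
  refine ⟨p0 f + ⌈A⌉₊ + 1, by omega, by omega, fun C => ?_⟩
  obtain ⟨X₀, hX⟩ := ev_pow C ((4 * 3 ^ k * (5 * k)) / (τ ^ 2 * η) + 1) (by positivity)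
  refine ⟨X₀ + 1, fun X hX1 w hw y hy => ?_⟩
  have h1 := rew f hf X w y (by omega) (by omega) (by omega) τ hτ
  refine h1.trans (mul_le_mul_of_nonneg_right ?_ (by positivity))
  have hw0 : (0 : ℝ) < w := by
    have : 1 ≤ w := by omega
    exact_mod_cast this
  have hX0 : (0 : ℝ) < X := by
    have : 1 ≤ X := by omega
    exact_mod_cast this
  have hAw : A ≤ w := by
    have h2 : (⌈A⌉₊ : ℝ) ≤ w := by
      have : ⌈A⌉₊ ≤ w := by omega
      exact_mod_cast this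
    exact (Nat.le_ceil A).trans h2
  have hXy : (4 * 3 ^ k * (5 * k)) / (τ ^ 2 * η) * (y : ℝ) ^ 2 ≤ X := by
    have h2 := hX X (by omega)
    have h3 : (y : ℝ) ^ 2 ≤ (Real.log X ^ C) ^ 2 := pow_le_pow_left₀ (Nat.cast_nonneg _) hy 2
    have h4 : (0 : ℝ) ≤ (4 * 3 ^ k * (5 * k)) / (τ ^ 2 * η) := by positivity
    have h5 := mul_le_mul_of_nonneg_left h3 h4
    have h6 : (0 : ℝ) ≤ (Real.log X ^ C) ^ 2 := sq_nonneg _
    nlinarith
  have e1 : (3 : ℝ) ^ k * (4 * (kap f + k : ℝ) ^ 2 / w) / τ ^ 2 ≤ η / 4 := by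
    rw [hA, div_le_iff₀ (by positivity)] at hAw
    rw [div_le_iff₀ (by positivity), ← mul_div_assoc, div_le_iff₀ hw0]
    nlinarith
  have e2 : (3 : ℝ) ^ k * (5 * k * (y : ℝ) ^ 2 / X) / τ ^ 2 ≤ η / 4 := by
    rw [div_mul_eq_mul_div, div_le_iff₀ (by positivity)] at hXy
    rw [div_le_iff₀ (by positivity), ← mul_div_assoc, div_le_iff₀ hX0]
    nlinarith
  have e3 : (3 : ℝ) ^ k * (4 * (kap f + k : ℝ) ^ 2 / w + 5 * k * (y : ℝ) ^ 2 / X) / τ ^ 2 =
      (3 : ℝ) ^ k * (4 * (kap f + k : ℝ) ^ 2 / w) / τ ^ 2 + (3 : ℝ) ^ k * (5 * k * (y : ℝ) ^ 2 / X) / τ ^ 2 := by ring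
  rw [e3]
  linarith

/-- **HGP** -/
theorem hgp {k : ℕ} (f : Fin k → ℤ[X]) (hf : ∀ l, Gd (f l)) : S_HGP f := by
  classical
  intro η hη
  obtain ⟨W1, hW1, hW1p, hF1⟩ := rew' f hf (1 / 2) η (by norm_num) hη
  have hK0 : 0 ≤ K3 f := by unfold K3; positivity
  set w0 : ℕ := W1 + 2 * kap f + ⌈2 * K3 f⌉₊ with hw0
  have hw01 : 1 ≤ w0 := by omega
  have hw0r : (0 : ℝ) < w0 := by exact_mod_cast hw01
  have hw0K : K3 f / w0 ≤ 1 / 2 := by
    have h1 : 2 * K3 f ≤ w0 := by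
      refine (Nat.le_ceil _).trans ?_
      have : ⌈2 * K3 f⌉₊ ≤ w0 := by omega
      exact_mod_cast this
    rw [div_le_iff₀ hw0r]
    linarith
  set δ : ℝ := ∏ p ∈ (range (w0 + 1)).filter Nat.Prime, (1 / (p : ℝ)) with hδ
  have hδ0 : 0 < δ := by
    apply prod_pos
    intro p hp
    have : (0 : ℝ) < p := by exact_mod_cast (mem_filter.1 hp).2.pos
    positivity
  refine ⟨δ * Real.exp (-1), by positivity, fun ε1 hε1 C E hE => ?_⟩
  set τ : ℝ := min 1 ε1 / 8 with hτd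
  have hm0 : 0 < min 1 ε1 := lt_min one_pos hε1
  have hτ0 : 0 < τ := by positivity
  have hτ1 : 8 * τ ≤ 1 := by rw [hτd]; linarith [min_le_left 1 ε1]
  have hτε : 8 * τ ≤ ε1 := by rw [hτd]; linarith [min_le_right 1 ε1]
  obtain ⟨W2, hW2, hW2p, hF2⟩ := rew' f hf τ η hτ0 hη
  obtain ⟨X1, hX1⟩ := hF1 C
  obtain ⟨X2, hX2⟩ := hF2 (C + E)
  obtain ⟨X3, hX3⟩ := ev_log ((W2 + 2 * kap f + ⌈K3 f / τ⌉₊ : ℕ) + 1)
  obtain ⟨X4, hX4⟩ := ev_log (w0 + 1)
  refine ⟨X1 + X2 + X3 + X4, fun X hX y hy1 hy2 => ?_⟩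
  have g1 := hX1 X (by omega) w0 (by omega) y hy2
  have g4 : (w0 : ℝ) + 1 ≤ Real.log X := hX4 X (by omega)
  have g5 : ((W2 + 2 * kap f + ⌈K3 f / τ⌉₊ : ℕ) : ℝ) + 1 ≤ Real.log X := hX3 X (by omega)
  have hlog1 : 1 ≤ Real.log X := by linarith
  set z : ℕ := ⌊Real.log X ^ E⌋₊ with hz
  have hzr : (z : ℝ) ≤ Real.log X ^ E := Nat.floor_le (by positivity)
  have hzl : Real.log X - 1 ≤ z := by
    have h1 := Nat.lt_floor_add_one (Real.log X ^ E)
    have h2 : Real.log X ≤ Real.log X ^ E := le_self_pow₀ hlog1 (by omega)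
    linarith
  have hzW : W2 + 2 * kap f + ⌈K3 f / τ⌉₊ ≤ z := by
    have : ((W2 + 2 * kap f + ⌈K3 f / τ⌉₊ : ℕ) : ℝ) ≤ z := by linarith
    exact_mod_cast this
  have hyW : W2 + 2 * kap f + ⌈K3 f / τ⌉₊ ≤ y := by
    have : ((W2 + 2 * kap f + ⌈K3 f / τ⌉₊ : ℕ) : ℝ) ≤ y := by linarith
    exact_mod_cast this
  set w : ℕ := min z y with hw
  set N : ℕ := max z y with hN
  have hwW : W2 + 2 * kap f + ⌈K3 f / τ⌉₊ ≤ w := le_min hzW hyW
  have hwN : w ≤ N := (min_le_left _ _).trans (le_max_left _ _)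
  have hNr : (N : ℝ) ≤ Real.log X ^ (C + E) := by
    have h1 : (z : ℝ) ≤ Real.log X ^ (C + E) :=
      hzr.trans (pow_le_pow_right₀ hlog1 (by omega))
    have h2 : (y : ℝ) ≤ Real.log X ^ (C + E) :=
      hy2.trans (pow_le_pow_right₀ hlog1 (by omega))
    rw [hN, Nat.cast_max]
    exact max_le h1 h2
  have g2 := hX2 X (by omega) w (by omega) N hNr
  have hw0y : w0 ≤ y := by
    have : (w0 : ℝ) ≤ y := by linarith
    exact_mod_cast this
  have hwr : (0 : ℝ) < w := by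
    have : 1 ≤ w := by omega
    exact_mod_cast this
  have hwK : K3 f / w ≤ τ := by
    have h1 : K3 f / τ ≤ w := by
      refine (Nat.le_ceil _).trans ?_
      have : ⌈K3 f / τ⌉₊ ≤ w := by omega
      exact_mod_cast this
    rw [div_le_iff₀ hτ0] at h1
    rw [div_le_iff₀ hwr]
    linarith
  refine ⟨(Bx k X).filter (fun a => 1 / 2 < |DR f a w0 y| ∨ τ < |DR f a w N|), filter_subset _ _, ?_, ?_⟩
  · rw [filter_or]
    calc ((#((Bx k X).filter (fun a => 1 / 2 < |DR f a w0 y|) ∪ (Bx k X).filter (fun a => τ < |DR f a w N|)) : ℕ) : ℝ)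
        ≤ ((#((Bx k X).filter (fun a => 1 / 2 < |DR f a w0 y|)) + #((Bx k X).filter (fun a => τ < |DR f a w N|)) : ℕ) : ℝ) := by
          exact_mod_cast card_union_le _ _
      _ ≤ η / 2 * (X : ℝ) ^ k + η / 2 * (X : ℝ) ^ k := by
          push_cast
          exact add_le_add g1 g2
      _ = _ := by ring
  · intro a ha hBad hadm
    rw [mem_filter] at hBad
    push Not at hBad
    obtain ⟨b1, b2⟩ := hBad ha
    constructor
    · obtain ⟨t, ht, ht2⟩ := SP_quot f hf a w0 y hw01 (by omega) (by omega) hw0y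
      rw [ht]
      have h1 := SP_ge f a hadm w0
      apply mul_le_mul h1 _ (Real.exp_pos _).le (hδ0.le.trans h1)
      rw [Real.exp_le_exp]
      rw [abs_le] at ht2 b1
      linarith [ht2.1, b1.1]
    · obtain ⟨t, ht, ht2⟩ := SP_quot f hf a w N (by omega) (by omega) (by omega) hwN
      have h1 := SP_ge f a hadm y
      have hpos : 0 < SP f a y := by
        refine lt_of_lt_of_le ?_ h1
        apply prod_pos
        intro p hp
        have : (0 : ℝ) < p := by exact_mod_cast (mem_filter.1 hp).2.pos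
        positivity
      have htτ : |t| ≤ 2 * τ := by
        have h3 : |t| ≤ |t - DR f a w N| + |DR f a w N| := by
          have := abs_add_le (t - DR f a w N) (DR f a w N)
          rwa [sub_add_cancel] at this
        linarith
      obtain ⟨s, hs, hst⟩ : ∃ s : ℝ, SP f a z = SP f a y * Real.exp s ∧ |s| = |t| := by
        rcases le_total z y with hzy | hzy
        · have e1 : w = z := min_eq_left hzy
          have e2 : N = y := max_eq_right hzy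
          rw [e1, e2] at ht
          exact ⟨-t, by rw [ht, mul_assoc, ← Real.exp_add, add_neg_cancel, Real.exp_zero, mul_one], abs_neg t⟩
        · have e1 : w = y := min_eq_right hzy
          have e2 : N = z := max_eq_left hzy
          rw [e1, e2] at ht
          exact ⟨t, ht, rfl⟩
      have h4 : |Real.exp s - 1| ≤ 2 * |s| := Real.abs_exp_sub_one_le (by rw [hst]; linarith)
      rw [hst] at h4
      have h5 : SP f a z - SP f a y = SP f a y * (Real.exp s - 1) := by rw [hs]; ring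
      rw [h5, abs_mul, abs_of_pos hpos, mul_comm]
      apply mul_le_mul_of_nonneg_right _ hpos.le
      linarith

end Run7.h803.A
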